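import Pool.Agent.Q100.WsMain

/-!
# Weak sequential supercyclicity does not imply weak 1-sequential supercyclicity
-/

set_option autoImplicit false

namespace Pool.Agent.Results.MP_e616d8_an.UnitaryExample

/-- There are a separable complex Hilbert space `H` and a unitary operator `U` on `H` which is
weakly sequentially supercyclic but not weakly 1-sequentially supercyclic. -/
theorem result : ∃ (H : Type) (_ : NormedAddCommGroup H) (_ : InnerProductSpace ℂ H)
    (_ : CompleteSpace H) (_ : TopologicalSpace.SeparableSpace H) (U : H ≃ₗᵢ[ℂ] H),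
    Q100.Ws.WeakSeqSupercyclic (U.toContinuousLinearEquiv.toContinuousLinearMap : H →L[ℂ] H) ∧
    ¬ Q100.Ws.Weak1SeqSupercyclic
      (U.toContinuousLinearEquiv.toContinuousLinearMap : H →L[ℂ] H) :=
  Q100.Ws.main

end Pool.Agent.Results.MP_e616d8_an.UnitaryExample
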